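import Mathlib

open scoped InnerProductSpace ENNReal BigOperators
open Filter Topology

noncomputable section

namespace Pool.Agent.Q164.NI

section Op

variable {K : Type*} [NormedAddCommGroup K] [InnerProductSpace ℂ K]

/-- The bounded operator `K^n → K^m` (Hilbert sums) given by an `m × n` matrix of operators. -/
def op {m n : ℕ} (X : Matrix (Fin m) (Fin n) (K →L[ℂ] K)) :
    PiLp 2 (fun _ : Fin n => K) →L[ℂ] PiLp 2 (fun _ : Fin m => K) :=
  (PiLp.continuousLinearEquiv 2 ℂ (fun _ : Fin m => K)).symm.toContinuousLinearMap ∘L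
    ContinuousLinearMap.pi (fun i => ∑ j, (X i j) ∘L (ContinuousLinearMap.proj j)) ∘L
    (PiLp.continuousLinearEquiv 2 ℂ (fun _ : Fin n => K)).toContinuousLinearMap

theorem op_apply {m n : ℕ} (X : Matrix (Fin m) (Fin n) (K →L[ℂ] K))
    (ξ : PiLp 2 (fun _ : Fin n => K)) (i : Fin m) : op X ξ i = ∑ j, X i j (ξ j) := by
  simp [op]

theorem op_mul {m n l : ℕ} (X : Matrix (Fin m) (Fin n) (K →L[ℂ] K))
    (Y : Matrix (Fin n) (Fin l) (K →L[ℂ] K)) : op (X * Y) = op X ∘L op Y := by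
  ext ξ i
  rw [op_apply]
  simp only [ContinuousLinearMap.comp_apply, op_apply, Matrix.mul_apply, map_sum,
    ContinuousLinearMap.sum_apply, ContinuousLinearMap.mul_apply]
  rw [Finset.sum_comm]

theorem norm_sq_pi {n : ℕ} (ξ : PiLp 2 (fun _ : Fin n => K)) : ‖ξ‖ ^ 2 = ∑ j, ‖ξ j‖ ^ 2 :=
  PiLp.norm_sq_eq_of_L2 _ ξ

/-- the test used for bounding `op` -/
theorem op_norm_le {m n : ℕ} (X : Matrix (Fin m) (Fin n) (K →L[ℂ] K)) {M : ℝ} (hM : 0 ≤ M)
    (h : ∀ ξ : PiLp 2 (fun _ : Fin n => K),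
      ∑ i, ‖∑ j, X i j (ξ j)‖ ^ 2 ≤ M ^ 2 * ∑ j, ‖ξ j‖ ^ 2) : ‖op X‖ ≤ M := by
  refine ContinuousLinearMap.opNorm_le_bound _ hM fun ξ => ?_
  have h1 := h ξ
  have h2 : ‖op X ξ‖ ^ 2 ≤ (M * ‖ξ‖) ^ 2 := by
    rw [norm_sq_pi, mul_pow, norm_sq_pi]
    simpa only [op_apply] using h1
  exact (sq_le_sq₀ (norm_nonneg _) (by positivity)).1 h2

end Op

section Diag

variable {ι : Type*}

/-- bounded functions -/
abbrev Linf (ι : Type*) := lp (fun _ : ι => ℂ) ∞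

/-- square summable functions -/
abbrev Ltwo (ι : Type*) := lp (fun _ : ι => ℂ) 2

theorem hasSum_sq (f : Ltwo ι) : HasSum (fun s => ‖f s‖ ^ 2) (‖f‖ ^ 2) := by
  have h := lp.hasSum_norm (p := 2) (by norm_num) f
  simpa using h

theorem norm_le_inf (a : Linf ι) (s : ι) : ‖a s‖ ≤ ‖a‖ :=
  lp.norm_apply_le_norm ENNReal.top_ne_zero a s

theorem mem_mul (a : Linf ι) (f : Ltwo ι) : Memℓp (fun s => a s * f s) 2 := by
  refine memℓp_gen ?_
  have h : Summable fun s => ‖a‖ ^ 2 * ‖f s‖ ^ 2 := (hasSum_sq f).summable.mul_left _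
  refine Summable.of_nonneg_of_le (fun s => by positivity) (fun s => ?_) h
  simp only [ENNReal.toReal_ofNat, Real.rpow_two, norm_mul, mul_pow]
  gcongr
  exact norm_le_inf a s

/-- the multiplication operator -/
def mulVec (a : Linf ι) (f : Ltwo ι) : Ltwo ι := ⟨fun s => a s * f s, mem_mul a f⟩

theorem mulVec_apply (a : Linf ι) (f : Ltwo ι) (s : ι) : mulVec a f s = a s * f s := rfl

theorem norm_mulVec_le (a : Linf ι) (f : Ltwo ι) : ‖mulVec a f‖ ≤ ‖a‖ * ‖f‖ := by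
  have h1 : HasSum (fun s => ‖mulVec a f s‖ ^ 2) (‖mulVec a f‖ ^ 2) := hasSum_sq _
  have h2 : HasSum (fun s => ‖a‖ ^ 2 * ‖f s‖ ^ 2) (‖a‖ ^ 2 * ‖f‖ ^ 2) := (hasSum_sq f).mul_left _
  have h3 : ‖mulVec a f‖ ^ 2 ≤ ‖a‖ ^ 2 * ‖f‖ ^ 2 := by
    refine hasSum_le (fun s => ?_) h1 h2
    rw [mulVec_apply, norm_mul, mul_pow]
    gcongr
    exact norm_le_inf a s
  rw [← mul_pow] at h3
  exact (sq_le_sq₀ (norm_nonneg _) (by positivity)).1 h3

/-- the multiplication operator as a bounded operator -/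
def D (a : Linf ι) : Ltwo ι →L[ℂ] Ltwo ι :=
  LinearMap.mkContinuous
    { toFun := mulVec a
      map_add' := fun f g => by
        ext s
        simp only [mulVec_apply, lp.coeFn_add, Pi.add_apply, mul_add]
      map_smul' := fun c f => by
        ext s
        simp only [mulVec_apply, lp.coeFn_smul, Pi.smul_apply, smul_eq_mul, RingHom.id_apply]
        ring } ‖a‖ (norm_mulVec_le a)

theorem D_apply (a : Linf ι) (f : Ltwo ι) (s : ι) : D a f s = a s * f s := rfl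

/-- the star algebra homomorphism -/
def Δ : Linf ι →⋆ₐ[ℂ] (Ltwo ι →L[ℂ] Ltwo ι) where
  toFun := D
  map_one' := by
    ext f s
    simp [D_apply]
  map_mul' a b := by
    ext f s
    simp only [D_apply, lp.infty_coeFn_mul, Pi.mul_apply, ContinuousLinearMap.mul_apply]
    ring
  map_zero' := by
    ext f s
    simp [D_apply]
  map_add' a b := by
    ext f s
    simp only [D_apply, lp.coeFn_add, Pi.add_apply, ContinuousLinearMap.add_apply]
    ring
  commutes' c := by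
    ext f s
    simp only [D_apply, Algebra.algebraMap_eq_smul_one, ContinuousLinearMap.smul_apply,
      ContinuousLinearMap.one_apply, lp.coeFn_smul, Pi.smul_apply, lp.infty_coeFn_one,
      Pi.one_apply, smul_eq_mul, mul_one]
  map_star' a := by
    rw [ContinuousLinearMap.star_eq_adjoint, ContinuousLinearMap.eq_adjoint_iff]
    intro f g
    rw [lp.inner_eq_tsum, lp.inner_eq_tsum]
    refine tsum_congr fun s => ?_
    simp only [D_apply, lp.coeFn_star, Pi.star_apply, RCLike.inner_apply, map_mul]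
    simp only [RCLike.star_def, RCLike.conj_conj]
    ring

theorem Δ_apply (a : Linf ι) (f : Ltwo ι) (s : ι) : Δ a f s = a s * f s := rfl

end Diag

section Norms

variable {ι : Type*}

/-- scalar matrices of norm at most `M` -/
def Mbd {m n : ℕ} (Y : Fin m → Fin n → ℂ) (M : ℝ) : Prop :=
  ∀ v : Fin n → ℂ, ∑ i, ‖∑ j, Y i j * v j‖ ^ 2 ≤ M ^ 2 * ∑ j, ‖v j‖ ^ 2

theorem opD_le {m n : ℕ} (Y : Matrix (Fin m) (Fin n) (Ltwo ι →L[ℂ] Ltwo ι))
    (X : Fin m → Fin n → Linf ι) (hY : ∀ i j, Y i j = Δ (X i j)) {M : ℝ} (hM : 0 ≤ M)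
    (h : ∀ s, Mbd (fun i j => X i j s) M) : ‖op Y‖ ≤ M := by
  refine op_norm_le _ hM fun ξ => ?_
  have h1 : HasSum (fun s => ∑ i, ‖(∑ j, Y i j (ξ j)) s‖ ^ 2)
      (∑ i, ‖∑ j, Y i j (ξ j)‖ ^ 2) := hasSum_sum fun i _ => hasSum_sq _
  have h2 : HasSum (fun s => M ^ 2 * ∑ j, ‖ξ j s‖ ^ 2) (M ^ 2 * ∑ j, ‖ξ j‖ ^ 2) :=
    (hasSum_sum fun j _ => hasSum_sq (ξ j)).mul_left _
  refine hasSum_le (fun s => ?_) h1 h2
  have h3 := h s (fun j => ξ j s)
  refine le_trans (le_of_eq ?_) h3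
  refine Finset.sum_congr rfl fun i _ => ?_
  rw [lp.coeFn_sum, Finset.sum_apply]
  refine congrArg (fun z : ℂ => ‖z‖ ^ 2) ?_
  refine Finset.sum_congr rfl fun j _ => ?_
  rw [hY, Δ_apply]

/-- the vector with the single entry `z` at `s` -/
def sg [DecidableEq ι] (s : ι) (z : ℂ) : Ltwo ι := lp.single 2 s z

theorem norm_sg [DecidableEq ι] (s : ι) (z : ℂ) : ‖sg s z‖ = ‖z‖ :=
  lp.norm_single (E := fun _ : ι => ℂ) (by norm_num) s z

theorem sg_self [DecidableEq ι] (s : ι) (z : ℂ) : sg s z s = z :=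
  lp.single_apply_self (E := fun _ : ι => ℂ) 2 s z

theorem sg_ne [DecidableEq ι] {s t : ι} (z : ℂ) (h : t ≠ s) : sg s z t = 0 :=
  lp.single_apply_ne (E := fun _ : ι => ℂ) 2 s z h

theorem opD_ge [DecidableEq ι] {m n : ℕ} (Y : Matrix (Fin m) (Fin n) (Ltwo ι →L[ℂ] Ltwo ι))
    (X : Fin m → Fin n → Linf ι) (hY : ∀ i j, Y i j = Δ (X i j)) (s : ι) :
    Mbd (fun i j => X i j s) ‖op Y‖ := by
  intro v
  set ξ : PiLp 2 (fun _ : Fin n => Ltwo ι) := WithLp.toLp 2 (fun j => sg s (v j)) with hξ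
  have hξj : ∀ j, ξ j = sg s (v j) := fun j => rfl
  have h1 := (op Y).le_opNorm ξ
  have h2 : ‖op Y ξ‖ ^ 2 ≤ ‖op Y‖ ^ 2 * ‖ξ‖ ^ 2 := by
    rw [← mul_pow]
    exact pow_le_pow_left₀ (norm_nonneg _) h1 2
  rw [norm_sq_pi, norm_sq_pi] at h2
  have h3 : ∀ j, ‖ξ j‖ ^ 2 = ‖v j‖ ^ 2 := by
    intro j
    rw [hξj, norm_sg]
  have h4 : ∀ i, op Y ξ i = sg s (∑ j, X i j s * v j) := by
    intro i
    rw [op_apply]
    ext t
    rw [lp.coeFn_sum, Finset.sum_apply]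
    by_cases ht : t = s
    · subst ht
      rw [sg_self]
      refine Finset.sum_congr rfl fun j _ => ?_
      rw [hY, Δ_apply, hξj, sg_self]
    · rw [sg_ne _ ht]
      refine Finset.sum_eq_zero fun j _ => ?_
      rw [hY, Δ_apply, hξj, sg_ne _ ht, mul_zero]
  simp only [h3, h4, norm_sg] at h2
  exact h2

/-- a contractive functional is completely contractive -/
theorem functional_Mbd {L : Type*} [NormedAddCommGroup L] [InnerProductSpace ℂ L] [CompleteSpace L]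
    (g : (L →L[ℂ] L) →L[ℂ] ℂ) (hg : ‖g‖ ≤ 1) {m n : ℕ} (X : Matrix (Fin m) (Fin n) (L →L[ℂ] L)) :
    Mbd (fun i j => g (X i j)) ‖op X‖ := by
  intro v
  set u : Fin m → ℂ := fun i => ∑ j, g (X i j) * v j with hu
  set T : L →L[ℂ] L := ∑ i, ∑ j, (starRingEnd ℂ (u i) * v j) • X i j with hT
  have h1 : g T = ((∑ i, ‖u i‖ ^ 2 : ℝ) : ℂ) := by
    rw [hT, map_sum]
    push_cast
    refine Finset.sum_congr rfl fun i _ => ?_
    rw [map_sum]
    have : ∀ j, g ((starRingEnd ℂ (u i) * v j) • X i j) =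
        starRingEnd ℂ (u i) * (g (X i j) * v j) := by
      intro j
      rw [map_smul, smul_eq_mul]
      ring
    rw [Finset.sum_congr rfl fun j _ => this j, ← Finset.mul_sum, mul_comm]
    exact Complex.mul_conj' (u i)
  have hv0 : 0 ≤ ∑ j, ‖v j‖ ^ 2 := Finset.sum_nonneg fun j _ => by positivity
  have hu0 : 0 ≤ ∑ i, ‖u i‖ ^ 2 := Finset.sum_nonneg fun j _ => by positivity
  have h2 : ‖T‖ ≤ ‖op X‖ * (Real.sqrt (∑ i, ‖u i‖ ^ 2) * Real.sqrt (∑ j, ‖v j‖ ^ 2)) := by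
    refine ContinuousLinearMap.opNorm_le_bound _ (by positivity) fun f => ?_
    have key : ∀ e : L, ‖⟪e, T f⟫_ℂ‖ ≤
        ‖op X‖ * (Real.sqrt (∑ i, ‖u i‖ ^ 2) * Real.sqrt (∑ j, ‖v j‖ ^ 2)) * ‖f‖ * ‖e‖ := by
      intro e
      set ξ : PiLp 2 (fun _ : Fin n => L) := WithLp.toLp 2 (fun j => v j • f) with hξ
      set η : PiLp 2 (fun _ : Fin m => L) := WithLp.toLp 2 (fun i => u i • e) with hη
      have hξn : ‖ξ‖ = Real.sqrt (∑ j, ‖v j‖ ^ 2) * ‖f‖ := by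
        rw [PiLp.norm_eq_of_L2]
        have : ∀ j, ‖ξ j‖ ^ 2 = ‖v j‖ ^ 2 * ‖f‖ ^ 2 := by
          intro j
          show ‖v j • f‖ ^ 2 = _
          rw [norm_smul, mul_pow]
        rw [Finset.sum_congr rfl fun j _ => this j, ← Finset.sum_mul, Real.sqrt_mul hv0,
          Real.sqrt_sq (norm_nonneg _)]
      have hηn : ‖η‖ = Real.sqrt (∑ i, ‖u i‖ ^ 2) * ‖e‖ := by
        rw [PiLp.norm_eq_of_L2]
        have : ∀ j, ‖η j‖ ^ 2 = ‖u j‖ ^ 2 * ‖e‖ ^ 2 := by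
          intro j
          show ‖u j • e‖ ^ 2 = _
          rw [norm_smul, mul_pow]
        rw [Finset.sum_congr rfl fun j _ => this j, ← Finset.sum_mul, Real.sqrt_mul hu0,
          Real.sqrt_sq (norm_nonneg _)]
      have h3 : ⟪e, T f⟫_ℂ = ⟪η, op X ξ⟫_ℂ := by
        rw [PiLp.inner_apply, hT]
        simp only [op_apply, ContinuousLinearMap.sum_apply, ContinuousLinearMap.smul_apply,
          inner_sum]
        refine Finset.sum_congr rfl fun i _ => ?_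
        refine Finset.sum_congr rfl fun j _ => ?_
        show _ = ⟪u i • e, X i j (v j • f)⟫_ℂ
        rw [map_smul, inner_smul_left, inner_smul_right, inner_smul_right]
        ring
      rw [h3]
      calc ‖⟪η, op X ξ⟫_ℂ‖ ≤ ‖η‖ * ‖op X ξ‖ := norm_inner_le_norm _ _
        _ ≤ ‖η‖ * (‖op X‖ * ‖ξ‖) := by
          gcongr
          exact (op X).le_opNorm ξ
        _ = _ := by
          rw [hξn, hηn]
          ring
    have h4 := key (T f)
    have h4' : ‖⟪T f, T f⟫_ℂ‖ = ‖T f‖ ^ 2 := by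
      rw [inner_self_eq_norm_sq_to_K]
      simp
    rw [h4'] at h4
    by_cases h0 : ‖T f‖ = 0
    · rw [h0]
      positivity
    · have hpos : 0 < ‖T f‖ := lt_of_le_of_ne (norm_nonneg _) (Ne.symm h0)
      rw [sq] at h4
      exact le_of_mul_le_mul_right h4 hpos
  have h5 : ∑ i, ‖u i‖ ^ 2 ≤ ‖T‖ := by
    have := g.le_opNorm T
    rw [h1, Complex.norm_real, Real.norm_of_nonneg hu0] at this
    nlinarith [norm_nonneg T]
  set a := Real.sqrt (∑ i, ‖u i‖ ^ 2) with ha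
  set b := Real.sqrt (∑ j, ‖v j‖ ^ 2) with hb
  have ha2 : a ^ 2 = ∑ i, ‖u i‖ ^ 2 := Real.sq_sqrt hu0
  have hb2 : b ^ 2 = ∑ j, ‖v j‖ ^ 2 := Real.sq_sqrt hv0
  have ha0 : 0 ≤ a := Real.sqrt_nonneg _
  have hb0 : 0 ≤ b := Real.sqrt_nonneg _
  have h6 : a ^ 2 ≤ ‖op X‖ * (a * b) := by
    rw [ha2]
    exact h5.trans h2
  show ∑ i, ‖u i‖ ^ 2 ≤ _
  rw [← ha2, ← hb2]
  have h7 : a ≤ ‖op X‖ * b := by
    rcases eq_or_lt_of_le ha0 with h | h
    · rw [← h]
      positivity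
    · nlinarith
  calc a ^ 2 ≤ (‖op X‖ * b) ^ 2 := by gcongr
    _ = _ := by ring

end Norms

end Pool.Agent.Q164.NI
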