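import Pool.Agent.Q164.NI.Base

open scoped InnerProductSpace ENNReal BigOperators
open Filter Topology

noncomputable section

namespace Pool.Agent.Q164.NI

/-- the free ultrafilter limits of a bounded sequence along the two residue classes mod 2 -/
theorem exists_lim (a : Linf ℕ) (b : Fin 2) :
    ∃ z : ℂ, Tendsto (fun n : ℕ => a (2 * n + b)) (hyperfilter ℕ) (𝓝 z) := by
  have hc : IsCompact (Metric.closedBall (0 : ℂ) ‖a‖) := isCompact_closedBall _ _
  obtain ⟨z, -, hz⟩ := hc.ultrafilter_le_nhds ((hyperfilter ℕ).map (fun n : ℕ => a (2 * n + b)))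
    (by
      rw [le_principal_iff, Ultrafilter.coe_map, Filter.mem_map]
      refine Filter.univ_mem' fun n => ?_
      show a (2 * n + b) ∈ Metric.closedBall (0 : ℂ) ‖a‖
      rw [mem_closedBall_zero_iff]
      exact norm_le_inf a _)
  exact ⟨z, hz⟩

/-- the limit -/
def Lm (b : Fin 2) (a : Linf ℕ) : ℂ := Classical.choose (exists_lim a b)

theorem Lm_spec (b : Fin 2) (a : Linf ℕ) :
    Tendsto (fun n : ℕ => a (2 * n + b)) (hyperfilter ℕ) (𝓝 (Lm b a)) :=
  Classical.choose_spec (exists_lim a b)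

theorem Lm_eq {b : Fin 2} {a : Linf ℕ} {z : ℂ}
    (h : Tendsto (fun n : ℕ => a (2 * n + b)) (hyperfilter ℕ) (𝓝 z)) : Lm b a = z :=
  tendsto_nhds_unique (Lm_spec b a) h

theorem Lm_norm (b : Fin 2) (a : Linf ℕ) : ‖Lm b a‖ ≤ ‖a‖ :=
  le_of_tendsto (Lm_spec b a).norm (Filter.Eventually.of_forall fun _ => norm_le_inf a _)

/-- the index set -/
abbrev I := ℕ ⊕ Fin 2

/-- extension of a bounded sequence by its two limits -/
def ext (a : Linf ℕ) : Linf I :=
  ⟨fun s => Sum.elim (fun n => a n) (fun b => Lm b a) s, memℓp_infty ⟨‖a‖, by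
    rintro _ ⟨s, rfl⟩
    rcases s with n | b
    · exact norm_le_inf a n
    · exact Lm_norm b a⟩⟩

theorem ext_inl (a : Linf ℕ) (n : ℕ) : ext a (Sum.inl n) = a n := rfl
theorem ext_inr (a : Linf ℕ) (b : Fin 2) : ext a (Sum.inr b) = Lm b a := rfl

/-- `ext` as a star homomorphism -/
def extHom : Linf ℕ →⋆ₐ[ℂ] Linf I where
  toFun := ext
  map_one' := by
    ext s
    rcases s with n | b
    · rfl
    · rw [ext_inr]
      exact Lm_eq tendsto_const_nhds
  map_mul' x y := by
    ext s
    rcases s with n | b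
    · rfl
    · rw [ext_inr]
      exact Lm_eq ((Lm_spec b x).mul (Lm_spec b y))
  map_zero' := by
    ext s
    rcases s with n | b
    · rfl
    · rw [ext_inr]
      exact Lm_eq tendsto_const_nhds
  map_add' x y := by
    ext s
    rcases s with n | b
    · rfl
    · rw [ext_inr]
      exact Lm_eq ((Lm_spec b x).add (Lm_spec b y))
  commutes' c := by
    ext s
    rcases s with n | b
    · rfl
    · rw [ext_inr]
      exact Lm_eq tendsto_const_nhds
  map_star' x := by
    ext s
    rcases s with n | b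
    · rfl
    · rw [ext_inr]
      exact Lm_eq (Lm_spec b x).star

theorem extHom_inl (a : Linf ℕ) (n : ℕ) : extHom a (Sum.inl n) = a n := rfl
theorem extHom_inr (a : Linf ℕ) (b : Fin 2) : extHom a (Sum.inr b) = Lm b a := rfl

/-- the two characters -/
def chi (b : Fin 2) : Linf ℕ →⋆ₐ[ℂ] ℂ where
  toFun := Lm b
  map_one' := Lm_eq tendsto_const_nhds
  map_mul' x y := Lm_eq ((Lm_spec b x).mul (Lm_spec b y))
  map_zero' := Lm_eq tendsto_const_nhds
  map_add' x y := Lm_eq ((Lm_spec b x).add (Lm_spec b y))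
  commutes' c := Lm_eq tendsto_const_nhds
  map_star' x := Lm_eq (Lm_spec b x).star

theorem chi_apply (b : Fin 2) (a : Linf ℕ) : chi b a = Lm b a := rfl

theorem chi_continuous (b : Fin 2) : Continuous (chi b) := by
  have : LipschitzWith 1 (chi b) := by
    refine LipschitzWith.of_dist_le_mul fun x y => ?_
    rw [dist_eq_norm, dist_eq_norm, ← map_sub, NNReal.coe_one, one_mul]
    exact Lm_norm b _
  exact this.continuous

/-- the algebra of bounded sequences with equal limits -/
def A0 : StarSubalgebra ℂ (Linf ℕ) := StarAlgHom.equalizer (chi 0) (chi 1)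

theorem mem_A0 (a : Linf ℕ) : a ∈ A0 ↔ Lm 0 a = Lm 1 a := Iff.rfl

/-- a matrix bound passes to the limits -/
theorem Mbd_ext {m n : ℕ} (X : Fin m → Fin n → Linf ℕ) {M : ℝ}
    (h : ∀ k : ℕ, Mbd (fun i j => X i j k) M) (s : I) : Mbd (fun i j => extHom (X i j) s) M := by
  rcases s with k | b
  · exact h k
  · intro v
    have h1 : Tendsto (fun k : ℕ => ∑ i, ‖∑ j, X i j (2 * k + b) * v j‖ ^ 2) (hyperfilter ℕ)
        (𝓝 (∑ i, ‖∑ j, extHom (X i j) (Sum.inr b) * v j‖ ^ 2)) := by
      refine tendsto_finsetSum _ fun i _ => ?_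
      refine Tendsto.pow ?_ 2
      refine Tendsto.norm ?_
      refine tendsto_finsetSum _ fun j _ => ?_
      exact (Lm_spec b (X i j)).mul_const _
    exact le_of_tendsto h1 (Filter.Eventually.of_forall fun k => h (2 * k + b) v)

theorem op_one_le {K : Type*} [NormedAddCommGroup K] [InnerProductSpace ℂ K] (T : K →L[ℂ] K) :
    ‖op (fun _ _ : Fin 1 => T)‖ ≤ ‖T‖ := by
  refine op_norm_le _ (norm_nonneg _) fun ξ => ?_
  simp only [Finset.univ_unique, Finset.sum_singleton]
  rw [← mul_pow]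
  exact pow_le_pow_left₀ (norm_nonneg _) (T.le_opNorm _) 2

theorem Δ_norm_le {ι : Type*} (a : Linf ι) : ‖Δ a‖ ≤ ‖a‖ :=
  LinearMap.mkContinuous_norm_le _ (norm_nonneg _) (norm_mulVec_le a)

theorem Δ_norm {ι : Type*} [DecidableEq ι] (a : Linf ι) : ‖Δ a‖ = ‖a‖ := by
  refine le_antisymm (Δ_norm_le a) ?_
  refine lp.norm_le_of_forall_le (norm_nonneg _) fun s => ?_
  have h := (Δ a).le_opNorm (sg s 1)
  rw [norm_sg, norm_one, mul_one] at h
  have h2 : Δ a (sg s 1) = sg s (a s) := by
    ext t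
    rw [Δ_apply]
    by_cases ht : t = s
    · subst ht
      rw [sg_self, sg_self, mul_one]
    · rw [sg_ne _ ht, sg_ne _ ht, mul_zero]
  rw [h2, norm_sg] at h
  exact h

theorem Δ_injective {ι : Type*} [DecidableEq ι] : Function.Injective (Δ : Linf ι → _) := by
  intro a b h
  have h1 : Δ (a - b) = 0 := by
    rw [map_sub, sub_eq_zero]
    exact h
  have h2 := Δ_norm (a - b)
  rw [h1, norm_zero] at h2
  exact sub_eq_zero.1 (norm_eq_zero.1 h2.symm)

theorem ext_norm (a : Linf ℕ) : ‖extHom a‖ = ‖a‖ := by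
  refine le_antisymm ?_ ?_
  · refine lp.norm_le_of_forall_le (norm_nonneg _) fun s => ?_
    rcases s with n | b
    · exact norm_le_inf a n
    · exact Lm_norm b a
  · refine lp.norm_le_of_forall_le (norm_nonneg _) fun n => ?_
    exact norm_le_inf (extHom a) (Sum.inl n)

theorem ext_injective : Function.Injective extHom := by
  intro a b h
  have h1 : extHom (a - b) = 0 := by
    rw [map_sub, sub_eq_zero]
    exact h
  have h2 := ext_norm (a - b)
  rw [h1, norm_zero] at h2
  exact sub_eq_zero.1 (norm_eq_zero.1 h2.symm)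

end Pool.Agent.Q164.NI
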