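import Pool.Agent.Q164.NI.Ext

open scoped InnerProductSpace ENNReal BigOperators
open Filter Topology

noncomputable section

namespace Pool.Agent.Q164.NI

/-- polar factorisation of a finitely supported vector -/
theorem polar {k : ℕ} (F : Finset I) (ξ : PiLp 2 (fun _ : Fin k => Ltwo I))
    (hF : ∀ s, s ∉ F → ∀ i, ξ i s = 0) :
    ∃ (ζ : Ltwo I) (γ : Fin k → Linf ℕ), ‖ζ‖ = ‖ξ‖ ∧ (∀ i, Δ (extHom (γ i)) ζ = ξ i) ∧
      ∀ s, ∑ i, ‖extHom (γ i) s‖ ^ 2 ≤ 1 := by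
  classical
  set w : I → ℝ := fun s => Real.sqrt (∑ i, ‖ξ i s‖ ^ 2) with hw
  have hw0 : ∀ s, 0 ≤ ∑ i, ‖ξ i s‖ ^ 2 := fun s => Finset.sum_nonneg fun i _ => by positivity
  have hw2 : ∀ s, w s ^ 2 = ∑ i, ‖ξ i s‖ ^ 2 := fun s => Real.sq_sqrt (hw0 s)
  have hwn : ∀ s, ‖((w s : ℝ) : ℂ)‖ ^ 2 = ∑ i, ‖ξ i s‖ ^ 2 := by
    intro s
    rw [Complex.norm_real, Real.norm_of_nonneg (Real.sqrt_nonneg _), hw2]
  have hsum : HasSum (fun s => ∑ i, ‖ξ i s‖ ^ 2) (∑ i, ‖ξ i‖ ^ 2) :=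
    hasSum_sum fun i _ => hasSum_sq (ξ i)
  set ζ : Ltwo I := ⟨fun s => ((w s : ℝ) : ℂ), memℓp_gen (by
    have := hsum.summable
    simp only [ENNReal.toReal_ofNat, Real.rpow_two, hwn]
    exact this)⟩ with hζ
  have hζs : ∀ s, ζ s = ((w s : ℝ) : ℂ) := fun s => rfl
  set q : Fin k → I → ℂ := fun i s => ξ i s / ((w s : ℝ) : ℂ) with hq
  have hq1 : ∀ s, ∑ i, ‖q i s‖ ^ 2 ≤ 1 := by
    intro s
    have : ∀ i, ‖q i s‖ ^ 2 = ‖ξ i s‖ ^ 2 / w s ^ 2 := by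
      intro i
      rw [hq]
      simp only [norm_div, div_pow]
      rw [hwn, hw2]
    rw [Finset.sum_congr rfl fun i _ => this i, ← Finset.sum_div, ← hw2]
    exact div_self_le_one _
  have hqw : ∀ i s, q i s * ((w s : ℝ) : ℂ) = ξ i s := by
    intro i s
    by_cases h : w s = 0
    · have h1 : ∑ i, ‖ξ i s‖ ^ 2 = 0 := by rw [← hw2, h]; norm_num
      have h2 := (Finset.sum_eq_zero_iff_of_nonneg (fun i _ => by positivity)).1 h1 i
        (Finset.mem_univ i)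
      have h3 : ξ i s = 0 := by
        have := pow_eq_zero_iff (two_ne_zero) |>.1 h2
        exact norm_eq_zero.1 this
      rw [h, h3]
      simp
    · rw [hq]
      have : ((w s : ℝ) : ℂ) ≠ 0 := by exact_mod_cast h
      field_simp
  have hqn : ∀ i s, ‖q i s‖ ≤ 1 := by
    intro i s
    have h1 : ‖q i s‖ ^ 2 ≤ 1 :=
      (Finset.single_le_sum (f := fun i => ‖q i s‖ ^ 2) (fun i _ => by positivity)
        (Finset.mem_univ i)).trans (hq1 s)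
    nlinarith [norm_nonneg (q i s)]
  set γ : Fin k → Linf ℕ := fun i =>
    ⟨fun n => if Sum.inl n ∈ F then q i (Sum.inl n) else
      q i (Sum.inr ⟨n % 2, Nat.mod_lt _ two_pos⟩), memℓp_infty ⟨1, by
        rintro _ ⟨n, rfl⟩
        dsimp only
        split_ifs
        · exact hqn _ _
        · exact hqn _ _⟩⟩ with hγ
  have hγs : ∀ i n, γ i n = if Sum.inl n ∈ F then q i (Sum.inl n) else
      q i (Sum.inr ⟨n % 2, Nat.mod_lt _ two_pos⟩) := fun i n => rfl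
  have hL : ∀ i b, Lm b (γ i) = q i (Sum.inr b) := by
    intro i b
    refine Lm_eq ?_
    refine Tendsto.congr' ?_ tendsto_const_nhds
    have hfin : {n : ℕ | (Sum.inl (2 * n + (b : ℕ)) : I) ∈ F}.Finite := by
      have : {n : ℕ | (Sum.inl (2 * n + (b : ℕ)) : I) ∈ F} =
          (fun n : ℕ => (Sum.inl (2 * n + (b : ℕ)) : I)) ⁻¹' (F : Set I) := rfl
      rw [this]
      refine F.finite_toSet.preimage ?_
      intro x _ y _ hxy
      simp only [Sum.inl.injEq] at hxy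
      omega
    have hev : ∀ᶠ n in (hyperfilter ℕ : Filter ℕ), ¬ (Sum.inl (2 * n + (b : ℕ)) : I) ∈ F := by
      refine hyperfilter_le_cofinite ?_
      rw [mem_cofinite]
      convert hfin using 1
      ext n
      simp
    filter_upwards [hev] with n hn
    rw [hγs, if_neg hn]
    congr 2
    ext
    simp only
    have := b.isLt
    omega
  refine ⟨ζ, γ, ?_, ?_, ?_⟩
  · have h1 : ‖ζ‖ ^ 2 = ‖ξ‖ ^ 2 := by
      rw [norm_sq_pi]
      refine (hasSum_sq ζ).unique ?_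
      simp only [hζs, hwn]
      exact hsum
    exact (sq_eq_sq₀ (norm_nonneg _) (norm_nonneg _)).1 h1
  · intro i
    ext s
    rw [Δ_apply, hζs]
    rcases s with n | b
    · rw [extHom_inl, hγs]
      split_ifs with h
      · exact hqw i _
      · have h0 : w (Sum.inl n) = 0 := by
          rw [hw]
          simp only
          rw [Finset.sum_eq_zero fun i _ => by rw [hF _ h i]; simp]
          exact Real.sqrt_zero
        rw [h0, hF _ h i]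
        simp
    · rw [extHom_inr, hL]
      exact hqw i _
  · intro s
    rcases s with n | b
    · simp only [extHom_inl, hγs]
      split_ifs
      · exact hq1 _
      · exact hq1 _
    · simp only [extHom_inr, hL]
      exact hq1 _

/-- row with entries in the copy -/
def rowM {k : ℕ} (δ : Fin k → Linf ℕ) : Matrix (Fin 1) (Fin k) (Ltwo I →L[ℂ] Ltwo I) :=
  fun _ i => Δ (extHom (δ i))

/-- column with entries in the copy -/
def colM {k : ℕ} (γ : Fin k → Linf ℕ) : Matrix (Fin k) (Fin 1) (Ltwo I →L[ℂ] Ltwo I) :=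
  fun i _ => Δ (extHom (γ i))

theorem row_le {k : ℕ} (δ : Fin k → Linf ℕ) (h : ∀ s, ∑ i, ‖extHom (δ i) s‖ ^ 2 ≤ 1) :
    ‖op (rowM δ)‖ ≤ 1 := by
  refine opD_le _ (fun _ i => extHom (δ i)) (fun _ _ => rfl) zero_le_one fun s v => ?_
  simp only [Finset.univ_unique, Finset.sum_singleton, one_pow, one_mul]
  have h1 : ‖∑ j, extHom (δ j) s * v j‖ ≤ ∑ j, ‖extHom (δ j) s‖ * ‖v j‖ :=
    (norm_sum_le _ _).trans (le_of_eq (Finset.sum_congr rfl fun j _ => norm_mul _ _))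
  have h2 : (∑ j, ‖extHom (δ j) s‖ * ‖v j‖) ^ 2 ≤
      (∑ j, ‖extHom (δ j) s‖ ^ 2) * ∑ j, ‖v j‖ ^ 2 := Finset.sum_mul_sq_le_sq_mul_sq _ _ _
  have h3 : 0 ≤ ∑ j, ‖v j‖ ^ 2 := Finset.sum_nonneg fun j _ => by positivity
  calc ‖∑ j, extHom (δ j) s * v j‖ ^ 2 ≤ (∑ j, ‖extHom (δ j) s‖ * ‖v j‖) ^ 2 :=
        pow_le_pow_left₀ (norm_nonneg _) h1 2
    _ ≤ _ := h2
    _ ≤ 1 * ∑ j, ‖v j‖ ^ 2 := by
      gcongr
      exact h s
    _ = _ := one_mul _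

theorem col_le {k : ℕ} (γ : Fin k → Linf ℕ) (h : ∀ s, ∑ i, ‖extHom (γ i) s‖ ^ 2 ≤ 1) :
    ‖op (colM γ)‖ ≤ 1 := by
  refine opD_le _ (fun i _ => extHom (γ i)) (fun _ _ => rfl) zero_le_one fun s v => ?_
  simp only [Finset.univ_unique, Finset.sum_singleton, one_pow, one_mul]
  have h1 : ∀ i, ‖extHom (γ i) s * v default‖ ^ 2 = ‖extHom (γ i) s‖ ^ 2 * ‖v default‖ ^ 2 := by
    intro i
    rw [norm_mul, mul_pow]
  rw [Finset.sum_congr rfl fun i _ => h1 i, ← Finset.sum_mul]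
  calc _ ≤ 1 * ‖v default‖ ^ 2 := by
        gcongr
        exact h s
    _ = _ := one_mul _

/-- constant vector of length one -/
def one1 (ζ : Ltwo I) : PiLp 2 (fun _ : Fin 1 => Ltwo I) := WithLp.toLp 2 (fun _ => ζ)

theorem norm_one1 (ζ : Ltwo I) : ‖one1 ζ‖ = ‖ζ‖ := by
  have h : ‖one1 ζ‖ ^ 2 = ‖ζ‖ ^ 2 := by
    rw [norm_sq_pi]
    simp [one1]
  exact (sq_eq_sq₀ (norm_nonneg _) (norm_nonneg _)).1 h

theorem bilin_fin {k : ℕ} (X : Matrix (Fin k) (Fin k) (Ltwo I →L[ℂ] Ltwo I)) {c : ℝ}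
    (h : ∀ γ δ : Fin k → Linf ℕ, (∀ s, ∑ i, ‖extHom (γ i) s‖ ^ 2 ≤ 1) →
      (∀ s, ∑ i, ‖extHom (δ i) s‖ ^ 2 ≤ 1) →
      ‖op (rowM δ * X * colM γ)‖ ≤ c)
    (F : Finset I) (ξ η : PiLp 2 (fun _ : Fin k => Ltwo I))
    (hξ : ∀ s, s ∉ F → ∀ i, ξ i s = 0) (hη : ∀ s, s ∉ F → ∀ i, η i s = 0) :
    ‖⟪η, op X ξ⟫_ℂ‖ ≤ c * (‖η‖ * ‖ξ‖) := by
  obtain ⟨ζ, γ, hζn, hζ, hγ⟩ := polar F ξ hξ
  obtain ⟨ζ', δ, hζn', hζ', hδ⟩ := polar F η hη
  have hδs : ∀ s, ∑ i, ‖extHom (star (δ i)) s‖ ^ 2 ≤ 1 := by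
    intro s
    have : ∀ i, ‖extHom (star (δ i)) s‖ = ‖extHom (δ i) s‖ := by
      intro i
      rw [map_star, lp.coeFn_star, Pi.star_apply, norm_star]
    simp only [this]
    exact hδ s
  have h1 := h γ (fun i => star (δ i)) hγ hδs
  set R : Matrix (Fin 1) (Fin k) (Ltwo I →L[ℂ] Ltwo I) := rowM (fun i => star (δ i)) with hR
  set C : Matrix (Fin k) (Fin 1) (Ltwo I →L[ℂ] Ltwo I) := colM γ with hC
  have h2 : op C (one1 ζ) = ξ := by
    ext i : 1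
    rw [op_apply]
    simp only [Finset.univ_unique, Finset.sum_singleton]
    exact hζ i
  have h3 : ∀ y : PiLp 2 (fun _ : Fin k => Ltwo I), ⟪η, y⟫_ℂ = ⟪one1 ζ', op R y⟫_ℂ := by
    intro y
    rw [PiLp.inner_apply, PiLp.inner_apply]
    simp only [Finset.univ_unique, Finset.sum_singleton, op_apply, inner_sum]
    refine Finset.sum_congr rfl fun i _ => ?_
    rw [← hζ' i]
    show ⟪Δ (extHom (δ i)) ζ', y i⟫_ℂ = ⟪ζ', Δ (extHom (star (δ i))) (y i)⟫_ℂ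
    rw [map_star, map_star, ContinuousLinearMap.star_eq_adjoint,
      ContinuousLinearMap.adjoint_inner_right]
  have h4 : op R (op X (op C (one1 ζ))) = op (R * X * C) (one1 ζ) := by
    rw [op_mul, op_mul]
    rfl
  rw [← h2, h3, h4]
  calc ‖⟪one1 ζ', op (R * X * C) (one1 ζ)⟫_ℂ‖ ≤ ‖one1 ζ'‖ * ‖op (R * X * C) (one1 ζ)‖ :=
        norm_inner_le_norm _ _
    _ ≤ ‖one1 ζ'‖ * (c * ‖one1 ζ‖) := by
        gcongr
        exact ((op (R * X * C)).le_opNorm _).trans (by gcongr)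
    _ = _ := by
      rw [norm_one1, norm_one1, hζn', h2, hζn]
      ring

/-- truncation -/
def tr {k : ℕ} (F : Finset I) (ξ : PiLp 2 (fun _ : Fin k => Ltwo I)) :
    PiLp 2 (fun _ : Fin k => Ltwo I) :=
  WithLp.toLp 2 (fun i => ∑ s ∈ F, sg s (ξ i s))

theorem tr_apply {k : ℕ} (F : Finset I) (ξ : PiLp 2 (fun _ : Fin k => Ltwo I)) (s : I)
    (hs : s ∉ F) (i : Fin k) : tr F ξ i s = 0 := by
  show (∑ t ∈ F, sg t (ξ i t) : Ltwo I) s = 0
  rw [lp.coeFn_sum, Finset.sum_apply]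
  refine Finset.sum_eq_zero fun t ht => ?_
  refine sg_ne _ ?_
  rintro rfl
  exact hs ht

theorem tr_tendsto {k : ℕ} (ξ : PiLp 2 (fun _ : Fin k => Ltwo I)) :
    Tendsto (fun F => tr F ξ) atTop (𝓝 ξ) := by
  have h1 : Tendsto (fun F : Finset I => fun i : Fin k => ∑ s ∈ F, sg s (ξ i s)) atTop
      (𝓝 (fun i => ξ i)) := by
    rw [tendsto_pi_nhds]
    intro i
    exact lp.hasSum_single (E := fun _ : I => ℂ) (p := 2) (by norm_num) (ξ i)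
  exact ((PiLp.continuous_toLp 2 (fun _ : Fin k => Ltwo I)).tendsto _).comp h1

theorem norming {k : ℕ} (X : Matrix (Fin k) (Fin k) (Ltwo I →L[ℂ] Ltwo I)) {c : ℝ} (hc : 0 ≤ c)
    (h : ∀ γ δ : Fin k → Linf ℕ, (∀ s, ∑ i, ‖extHom (γ i) s‖ ^ 2 ≤ 1) →
      (∀ s, ∑ i, ‖extHom (δ i) s‖ ^ 2 ≤ 1) →
      ‖op (rowM δ * X * colM γ)‖ ≤ c) :
    ‖op X‖ ≤ c := by
  have key : ∀ ξ η : PiLp 2 (fun _ : Fin k => Ltwo I), ‖⟪η, op X ξ⟫_ℂ‖ ≤ c * (‖η‖ * ‖ξ‖) := by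
    intro ξ η
    have hl : Tendsto (fun F => ‖⟪tr F η, op X (tr F ξ)⟫_ℂ‖) atTop (𝓝 ‖⟪η, op X ξ⟫_ℂ‖) :=
      ((tr_tendsto η).inner (((op X).continuous.tendsto ξ).comp (tr_tendsto ξ))).norm
    have hr : Tendsto (fun F => c * (‖tr F η‖ * ‖tr F ξ‖)) atTop (𝓝 (c * (‖η‖ * ‖ξ‖))) :=
      ((tr_tendsto η).norm.mul (tr_tendsto ξ).norm).const_mul c
    exact le_of_tendsto_of_tendsto' hl hr fun F =>
      bilin_fin X h F _ _ (fun s hs i => tr_apply F ξ s hs i) (fun s hs i => tr_apply F η s hs i)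
  refine ContinuousLinearMap.opNorm_le_bound _ hc fun ξ => ?_
  have h1 := key ξ (op X ξ)
  have h2 : ‖⟪op X ξ, op X ξ⟫_ℂ‖ = ‖op X ξ‖ ^ 2 := by
    rw [inner_self_eq_norm_sq_to_K]
    simp
  rw [h2] at h1
  by_cases h0 : ‖op X ξ‖ = 0
  · rw [h0]
    positivity
  · have hpos : 0 < ‖op X ξ‖ := lt_of_le_of_ne (norm_nonneg _) (Ne.symm h0)
    nlinarith

end Pool.Agent.Q164.NI
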